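import Pool.Agent.Helper36.Pin.Main2

/-!
# The pinning number of an arbitrary graph and linear matroid parity

For `n = |V| ≤ 3` the pinning number is `n`. For `n ≥ 4` it is `3` if some set with three elements
pins, and otherwise it is `max 4 (n + |U| - μ)`, where `U` is the complement of a set which is
found greedily and `μ` is the parity number of an explicit family of lines, of polynomial size and
with small integer coordinates.
-/

set_option autoImplicit false

namespace Pool.Agent.Results.MP_35f203_lc.ParityFormula

open Pool.Agent.Helper36.Pin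

theorem result (V : Type) [Fintype V] [DecidableEq V] (G : SimpleGraph V) :
    (Fintype.card V ≤ 3 → pin G = Fintype.card V) ∧
    (4 ≤ Fintype.card V →
      (∃ P₀, Complete G P₀) ∧
      ((∃ P : Finset V, P.card = 3 ∧ Pins G P) → pin G = 3) ∧
      ((¬ ∃ P : Finset V, P.card = 3 ∧ Pins G P) → ∀ P₀, Complete G P₀ →
        ∀ (t : V → ℚ) (c : Gen G → ℚ), Function.Injective t → Function.Injective c →
          pin G = max 4 (Fintype.card V + (P₀ᶜ).card -
            parityNumber (lines G P₀ᶜ) (vec G t c))) ∧
      Fintype.card (Coord G) ≤ 4 * (Fintype.card V + 1) ^ 2 ∧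
      Fintype.card (Line G) ≤ 2 * (Fintype.card V + 1) ^ 5) ∧
    (∀ F a b, IsEnd G F a b → (G.induce (F : Set V)).Connected) ∧
    (JacksonJordan V → ∀ P, GeomPins G P ↔ Pins G P) :=
  ⟨pin_small G,
    fun hV => ⟨exists_complete G, pin_eq_three G hV,
      fun h3 P₀ hP₀ t c ht hc => pin_parity G hV h3 P₀ hP₀ t c ht hc,
      size_bounds G (by omega)⟩,
    isEnd_connected G, fun hJJ P => geomPins_iff hJJ G P⟩

end Pool.Agent.Results.MP_35f203_lc.ParityFormula
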