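import Pool.Agent.Helper36.Alg.Final
import Pool.Agent.Helper36.Pin.Main2
import Pool.Agent.Helper36.JJ.Main

/-!
# The pinning number of a graph in the plane is computable in polynomial time

The theorem is unconditional: the characterization of globally rigid graphs (theorem of Jackson and
Jordán), the reduction to linear matroid parity, the correctness of a local search algorithm for
linear matroid parity over a prime field, and the running time on Turing machines are proved in the
imported files.
-/

set_option autoImplicit false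

namespace Pool.Agent.Results.MP_35f203_lc.PolynomialTime

/-- A generic realization: the `2|V|` coordinates are algebraically independent over `ℚ`. -/
def Generic {V : Type} (p : V → EuclideanSpace ℝ (Fin 2)) : Prop :=
  AlgebraicIndependent ℚ (fun x : V × Fin 2 => p x.1 x.2)

/-- `P` pins `G`: for every generic realization `p`, a realization `q` with the same edge lengths
and the same positions of the vertices in `P` is equal to `p`. -/
def Pins {V : Type} (G : SimpleGraph V) (P : Finset V) : Prop :=
  ∀ p : V → EuclideanSpace ℝ (Fin 2), Generic p → ∀ q : V → EuclideanSpace ℝ (Fin 2),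
    (∀ u v, G.Adj u v → dist (q u) (q v) = dist (p u) (p v)) → (∀ v ∈ P, q v = p v) → q = p

/-- The pinning number: the least number of elements of a set which pins `G`. -/
noncomputable def pin {V : Type} (G : SimpleGraph V) : ℕ :=
  sInf {k | ∃ P : Finset V, Pins G P ∧ P.card = k}

/-- The number `n` in unary, followed by the letter `false`. -/
def unary (n : ℕ) : List Bool := List.replicate n true ++ [false]

/-- The code of a graph with the vertices `0, ..., n-1` and a given list of edges. -/
def code (x : ℕ × List (ℕ × ℕ)) : List Bool :=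
  unary x.1 ++ x.2.flatMap (fun e => unary e.1 ++ unary e.2)

/-- The graph with the vertices `0, ..., n-1` and the edges in the list `l` (loops, repetitions and
pairs with a number `≥ n` are ignored). -/
def graph (n : ℕ) (l : List (ℕ × ℕ)) : SimpleGraph (Fin n) where
  Adj u v := u ≠ v ∧ (((u : ℕ), (v : ℕ)) ∈ l ∨ ((v : ℕ), (u : ℕ)) ∈ l)
  symm := ⟨fun _ _ h => ⟨h.1.symm, h.2.symm⟩⟩
  loopless := ⟨fun _ h => h.1 rfl⟩

theorem dist_eq_iff (a b c d : EuclideanSpace ℝ (Fin 2)) :
    dist a b = dist c d ↔ Pool.Agent.Helper36.Pin.dsq (fun i => a i) (fun i => b i) =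
      Pool.Agent.Helper36.Pin.dsq (fun i => c i) (fun i => d i) := by
  rw [EuclideanSpace.dist_eq, EuclideanSpace.dist_eq, Real.sqrt_inj (by positivity) (by positivity)]
  simp only [Fin.sum_univ_two, Real.dist_eq, sq_abs, Pool.Agent.Helper36.Pin.dsq]

theorem pins_iff {V : Type} (G : SimpleGraph V) (P : Finset V) :
    Pins G P ↔ Pool.Agent.Helper36.Pin.GeomPins G P := by
  constructor
  · intro h p hp q hq hP
    let p' : V → EuclideanSpace ℝ (Fin 2) := fun v => WithLp.toLp 2 (p v)
    let q' : V → EuclideanSpace ℝ (Fin 2) := fun v => WithLp.toLp 2 (q v)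
    have h1 : ∀ u v, G.Adj u v → dist (q' u) (q' v) = dist (p' u) (p' v) := by
      intro u v huv
      rw [dist_eq_iff]
      exact hq u v huv
    have h2 : ∀ v ∈ P, q' v = p' v := by
      intro v hv
      have := hP v hv
      simp only [p', q', this]
    have h3 : q' = p' := h p' hp q' h1 h2
    funext v
    have h4 : q' v = p' v := congrFun h3 v
    exact (WithLp.toLp_injective 2) h4
  · intro h p hp q hq hP
    let p' : V → Fin 2 → ℝ := fun v i => p v i
    let q' : V → Fin 2 → ℝ := fun v i => q v i
    have h1 : ∀ u v, G.Adj u v → Pool.Agent.Helper36.Pin.dsq (q' u) (q' v) =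
        Pool.Agent.Helper36.Pin.dsq (p' u) (p' v) := by
      intro u v huv
      exact (dist_eq_iff _ _ _ _).1 (hq u v huv)
    have h2 : ∀ v ∈ P, q' v = p' v := by
      intro v hv
      have h := hP v hv
      funext i
      show q v i = p v i
      rw [h]
    have h3 : q' = p' := h p' hp q' h1 h2
    funext v
    ext i
    exact congrFun (congrFun h3 v) i

theorem graph_surj (n : ℕ) (G : SimpleGraph (Fin n)) :
    ∃ l : List (ℕ × ℕ), graph n l = G ∧ (code (n, l)).length ≤ 2 * (n + 1) ^ 3 := by
  classical
  let L : List (Fin n × Fin n) := (Finset.univ.filter (fun e : Fin n × Fin n => G.Adj e.1 e.2)).toList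
  refine ⟨L.map (fun e => ((e.1 : ℕ), (e.2 : ℕ))), ?_, ?_⟩
  · ext u v
    have key : ∀ a b : Fin n, (((a : ℕ), (b : ℕ)) ∈ L.map (fun e => ((e.1 : ℕ), (e.2 : ℕ)))) ↔
        G.Adj a b := by
      intro a b
      rw [List.mem_map]
      constructor
      · rintro ⟨⟨x, y⟩, hxy, h⟩
        rw [Finset.mem_toList, Finset.mem_filter] at hxy
        simp only [Prod.mk.injEq] at h
        have h1 : x = a := Fin.ext h.1
        have h2 : y = b := Fin.ext h.2
        subst h1; subst h2
        exact hxy.2
      · intro h
        exact ⟨(a, b), Finset.mem_toList.2 (Finset.mem_filter.2 ⟨Finset.mem_univ _, h⟩), rfl⟩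
    show (u ≠ v ∧ _) ↔ _
    rw [key u v, key v u]
    constructor
    · rintro ⟨-, h | h⟩
      · exact h
      · exact h.symm
    · intro h
      exact ⟨h.ne, Or.inl h⟩
  · have hL : L.length ≤ n ^ 2 := by
      rw [Finset.length_toList]
      refine (Finset.card_le_univ _).trans ?_
      rw [Fintype.card_prod, Fintype.card_fin, sq]
    have key : ∀ l : List (Fin n × Fin n),
        ((l.map (fun e => ((e.1 : ℕ), (e.2 : ℕ)))).flatMap
          (fun e => unary e.1 ++ unary e.2)).length ≤ l.length * (2 * n) := by
      intro l
      induction l with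
      | nil => simp
      | cons e l ih =>
        rw [List.map_cons, List.flatMap_cons, List.length_append, List.length_cons]
        have h1 := e.1.2
        have h2 := e.2.2
        have h3 : (unary (e.1 : ℕ) ++ unary (e.2 : ℕ)).length ≤ 2 * n := by
          simp only [unary, List.length_append, List.length_replicate, List.length_cons,
            List.length_nil]
          omega
        calc _ ≤ 2 * n + l.length * (2 * n) := Nat.add_le_add h3 ih
          _ = (l.length + 1) * (2 * n) := by ring
    show (unary n ++ _).length ≤ _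
    rw [List.length_append]
    have h1 : (unary n).length = n + 1 := by simp [unary]
    have h2 := key L
    have h3 : L.length * (2 * n) ≤ n ^ 2 * (2 * n) := Nat.mul_le_mul_right _ hL
    rw [h1]
    nlinarith [Nat.zero_le n, Nat.zero_le (n ^ 2)]

theorem pin_eq {n : ℕ} (G : SimpleGraph (Fin n)) : pin G = Pool.Agent.Helper36.Pin.pin G := by
  have hJJ : Pool.Agent.Helper36.Pin.JacksonJordan (Fin n) :=
    Pool.Agent.Helper36.JJ.jackson_jordan
  unfold pin Pool.Agent.Helper36.Pin.pin
  congr 1
  ext k
  constructor
  · rintro ⟨P, hP, hk⟩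
    exact ⟨P, hk, (Pool.Agent.Helper36.Pin.geomPins_iff hJJ G P).1 ((pins_iff G P).1 hP)⟩
  · rintro ⟨P, hk, hP⟩
    exact ⟨P, (pins_iff G P).2 ((Pool.Agent.Helper36.Pin.geomPins_iff hJJ G P).2 hP), hk⟩

theorem result :
    Function.Injective code ∧
    (∀ (n : ℕ) (G : SimpleGraph (Fin n)), ∃ l : List (ℕ × ℕ),
      graph n l = G ∧ (code (n, l)).length ≤ 2 * (n + 1) ^ 3) ∧
    Nonempty (Turing.TM2ComputableInPolyTime code Computability.encodeNat
      (fun x : ℕ × List (ℕ × ℕ) => pin (graph x.1 x.2))) := by
  refine ⟨Pool.Agent.Helper36.Alg.encodeGraph_injective, graph_surj, ?_⟩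
  have h : (fun x : ℕ × List (ℕ × ℕ) => pin (graph x.1 x.2)) =
      fun x => Pool.Agent.Helper36.Pin.pin (Pool.Agent.Helper36.Alg.graphOf x.1 x.2) := by
    funext x
    exact pin_eq _
  rw [h]
  exact Pool.Agent.Helper36.Alg.pin_polytime

end Pool.Agent.Results.MP_35f203_lc.PolynomialTime
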